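import Pool.Agent.V1151.DG.Defs

/-!
# Growth of the defects for a pair of systems of classes (Hodge classes and absolute Hodge classes)
-/

open CategoryTheory AlgebraicGeometry

universe u v w

namespace Pool.Agent.V1151.DA

open Pool.Agent.H914 Pool.Agent.H914.VarClass Pool.Agent.H914.VarClass.Obj Pool.Agent.W492.BB
  Pool.Agent.TH133
open Pool.Agent.V1151.DG (pw)

variable {k : Type u} [Field k] {𝒱 : VarClass k} {C : TheoryData.{u, v, 0} 𝒱 ℚ} {K : Type w}
  [Field K] (H : WeilTheoryData.{u, v, w} C K)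

/-- A system of subspaces of the cohomology of all varieties. -/
abbrev Sys := ∀ X : 𝒱.Obj, Submodule K (H.A X)

/-- The system `N` contains the classes of cycles and is stable under pull-backs and push-forwards
(for example: sums of Hodge classes). -/
structure IsClosed (N : Sys H) : Prop where
  alg : ∀ {X : 𝒱.Obj} (z : C.A X), H.cl z ∈ N X
  pull : ∀ {X Y : 𝒱.Obj} (f : X ⟶ Y) {t : H.A Y}, t ∈ N Y → H.up f t ∈ N X
  push : ∀ {X Y : 𝒱.Obj} (f : X ⟶ Y) {t : H.A X}, t ∈ N X → H.down f t ∈ N Y

/-- The system `Z` contains `N` and is stable under pull-backs. -/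
structure IsOver (Z N : Sys H) : Prop where
  le : ∀ X : 𝒱.Obj, N X ≤ Z X
  pull : ∀ {X Y : 𝒱.Obj} (f : X ⟶ Y) {t : H.A Y}, t ∈ Z Y → H.up f t ∈ Z X

/-- The system `Z` is stable under products with elements of `N`. -/
def IsMul (Z N : Sys H) : Prop :=
  ∀ (X : 𝒱.Obj) (s t : H.A X), s ∈ Z X → t ∈ N X → H.mul s t ∈ Z X

/-- Two systems of cohomology classes, the large one (for the problem: sums of Tate classes) and the
small one (combinations of Hodge classes). -/
structure Pair where
  /-- the large system -/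
  cls : Sys H
  /-- the small system -/
  abs : Sys H
  small : IsClosed H abs
  smallMul : IsMul H abs abs
  large : IsOver H cls abs
  largeMul : IsMul H cls abs

variable {H} (T : Pair H)

/-- There are `A` classes `w 0, …, w (A - 1)` in the small system on `Y` with dual classes
`w' 0, …, w' (A - 1)` in the small system, that is, `(w i, w' j) = δ_{ij}`: for all `X` the
push-forward of `X × (w i w' j)` to `X` is `δ_{ij}`. -/
def RankGE (Y : 𝒱.Obj) (A : ℕ) : Prop :=
  ∃ w w' : Fin A → H.A Y, (∀ i, w i ∈ T.abs Y) ∧ (∀ i, w' i ∈ T.abs Y) ∧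
    ∀ i j, ∀ X : 𝒱.Obj, H.down (fst X Y) (H.up (snd X Y) (w i * w' j)) = if i = j then 1 else 0

/-- The classes of the large system on `X` belong to the small one. -/
def Holds (X : 𝒱.Obj) : Prop := T.cls X ≤ T.abs X

/-- There are `d` classes of the large system on `X` which are linearly independent modulo the small
one. -/
def DefectGE (X : 𝒱.Obj) (d : ℕ) : Prop :=
  ∃ t : Fin d → H.A X, (∀ i, t i ∈ T.cls X) ∧
    ∀ c : Fin d → K, ∑ i, c i • t i ∈ T.abs X → c = 0

/-- The classes of codimension `r` of the large system on `X` belong to the small one. -/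
def HoldsIn (r : ℕ) (X : 𝒱.Obj) : Prop := ∀ t ∈ T.cls X, H.Deg (2 * r) t → t ∈ T.abs X

/-- The same for the classes of codimension `r`. -/
def DefectInGE (r : ℕ) (X : 𝒱.Obj) (d : ℕ) : Prop :=
  ∃ t : Fin d → H.A X, (∀ i, t i ∈ T.cls X ∧ H.Deg (2 * r) (t i)) ∧
    ∀ c : Fin d → K, ∑ i, c i • t i ∈ T.abs X → c = 0

/-- For some `m` and `A` there are `A` classes of the small system on `X ^ (m + 1)` with dual
classes, and for infinitely many `n` the number of classes of the large system on `X ^ (n + 1)`
which are independent modulo the small one is at most `D β ^ (n + 1)`, with a constant `D` and `β`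
less than the root of `A` of order `m + 1`. -/
def SlowGrowth (X : 𝒱.Obj) : Prop :=
  ∃ (m A : ℕ) (β D : ℝ), RankGE T (pw X m) A ∧ 0 ≤ β ∧ β ^ (m + 1) < A ∧
    ∃ᶠ n : ℕ in Filter.atTop, ∀ d : ℕ, DefectGE T (pw X n) d → (d : ℝ) ≤ D * β ^ (n + 1)

/-- For every `ε > 0` and infinitely many `n` the number of classes of codimension `r` on
`X ^ (n + 1)` in the large system which are independent modulo the small one is at most
`ε (n + 1)`. -/
def SublinearIn (r : ℕ) (X : 𝒱.Obj) : Prop :=
  ∀ ε : ℝ, 0 < ε → ∃ᶠ n : ℕ in Filter.atTop, ∀ d : ℕ, DefectInGE T r (pw X n) d →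
    (d : ℝ) ≤ ε * (n + 1)

end Pool.Agent.V1151.DA
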