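import Pool.Agent.V1151.DA.Defs
import Pool.Agent.V1151.DG.Main

/-!
# Growth of the defects for a pair of systems of classes
-/

open CategoryTheory AlgebraicGeometry Filter

universe u v w

namespace Pool.Agent.V1151.DA

open Pool.Agent.H914 Pool.Agent.H914.VarClass Pool.Agent.H914.VarClass.Obj Pool.Agent.W492.BB
  Pool.Agent.W550.Corr Pool.Agent.TH133
open Pool.Agent.V1151.DG (pw pw_iso estimate exists_pt push_fst_pt push_snd_pt push_fst_zero)

set_option linter.unusedSectionVars false

variable {k : Type u} [Field k] {𝒱 : VarClass k} {C : TheoryData.{u, v, 0} 𝒱 ℚ}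
  [hC : IsChowProj C] {K : Type w} [Field K] {H : WeilTheoryData.{u, v, w} C K}
  [hH : IsWeilProj H] {X Y Z : 𝒱.Obj} {T : Pair H}

/-- contraction with a class on the second factor -/
noncomputable def con (X : 𝒱.Obj) {Y : 𝒱.Obj} (z : H.A Y) (x : H.A (X.prod Y)) : H.A X :=
  H.push (fst X Y) (x * H.pull (snd X Y) z)

lemma con_abs {z : H.A Y} (hz : z ∈ T.abs Y) {x : H.A (X.prod Y)} (hx : x ∈ T.abs (X.prod Y)) :
    con X z x ∈ T.abs X := T.small.push _ (T.smallMul _ _ _ hx (T.small.pull _ hz))

lemma con_sum {ι : Type*} (s : Finset ι) (z : H.A Y) (c : ι → K) (x : ι → H.A (X.prod Y)) :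
    con X z (∑ i ∈ s, c i • x i) = ∑ i ∈ s, c i • con X z (x i) := by
  simp only [con, Finset.sum_mul, map_sum, smul_mul_assoc, map_smul]

lemma con_ext (t : H.A X) (w z : H.A Y) :
    con X z (H.pull (fst X Y) t * H.pull (snd X Y) w) =
      t * H.push (fst X Y) (H.pull (snd X Y) (w * z)) := by
  rw [con, mul_assoc, ← map_mul]
  exact hH.isTheory.hasProjectionFormula.proj_left (fst X Y) (H.pull (snd X Y) (w * z)) t

/-- The defect is multiplied at least by the number of classes with dual classes. -/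
lemma defect_prod {d A : ℕ} (hd : DefectGE T X d) (hA : RankGE T Y A) :
    DefectGE T (X.prod Y) (d * A) := by
  obtain ⟨t, ht, hti⟩ := hd
  obtain ⟨w, w', hw1, hw2, hw⟩ := hA
  refine ⟨fun l => H.pull (fst X Y) (t (finProdFinEquiv.symm l).1) *
    H.pull (snd X Y) (w (finProdFinEquiv.symm l).2), fun l => ?_, fun c hc => ?_⟩
  · exact T.largeMul _ _ _ (T.large.pull _ (ht _)) (T.small.pull _ (hw1 _))
  · have h1 : ∑ l, c l • (H.pull (fst X Y) (t (finProdFinEquiv.symm l).1) *
        H.pull (snd X Y) (w (finProdFinEquiv.symm l).2)) =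
        ∑ p : Fin d × Fin A, c (finProdFinEquiv p) • (H.pull (fst X Y) (t p.1) *
          H.pull (snd X Y) (w p.2)) := by
      rw [← Equiv.sum_comp finProdFinEquiv]
      simp
    rw [h1] at hc
    have h2 : ∀ j i, c (finProdFinEquiv (i, j)) = 0 := by
      intro j
      have h3 := con_abs (hw2 j) hc
      rw [con_sum] at h3
      have h4 : ∑ p : Fin d × Fin A, c (finProdFinEquiv p) •
          con X (w' j) (H.pull (fst X Y) (t p.1) * H.pull (snd X Y) (w p.2)) =
          ∑ i : Fin d, c (finProdFinEquiv (i, j)) • t i := by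
        rw [Fintype.sum_prod_type]
        refine Finset.sum_congr rfl fun i _ => ?_
        have h5 : ∀ j', H.push (fst X Y) (H.pull (snd X Y) (w j' * w' j)) =
            if j' = j then 1 else 0 := fun j' => hw j' j X
        rw [Finset.sum_eq_single j]
        · rw [con_ext, h5, if_pos rfl, mul_one]
        · intro j' _ hj'
          rw [con_ext, h5, if_neg hj', mul_zero, smul_zero]
        · intro h
          exact absurd (Finset.mem_univ j) h
      rw [h4] at h3
      exact fun i => congrFun (hti _ h3) i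
    funext l
    obtain ⟨⟨i, j⟩, rfl⟩ := finProdFinEquiv.surjective l
    exact h2 j i

lemma pull_pull (f : X ⟶ Y) (g : Y ⟶ X) (h : f ≫ g = 𝟙 X) (t : H.A X) :
    H.pull f (H.pull g t) = t := by
  have h3 : H.pull (f ≫ g) t = H.pull f (H.pull g t) := hH.isTheory.isFunctor.pull_comp f g t
  have h4 : H.pull (𝟙 X) t = t := hH.isTheory.isFunctor.pull_id t
  rw [← h3, h, h4]

lemma defect_iso (f : X ⟶ Y) (g : Y ⟶ X) (h : f ≫ g = 𝟙 X) {d : ℕ} (hd : DefectGE T X d) :
    DefectGE T Y d := by
  obtain ⟨t, ht, hti⟩ := hd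
  refine ⟨fun i => H.pull g (t i), fun i => T.large.pull g (ht i), fun c hc => hti c ?_⟩
  have h1 : H.pull f _ ∈ T.abs X := T.small.pull f hc
  rw [map_sum] at h1
  simpa only [map_smul, pull_pull f g h] using h1

lemma rank_one (X : 𝒱.Obj) : RankGE T X 1 := by
  obtain ⟨a, -, ha⟩ := exists_pt (C := C) X
  refine ⟨fun _ => 1, fun _ => H.cl a, fun _ => ?_, fun _ => T.small.alg a, fun i j Y => ?_⟩
  · have := T.small.alg (X := X) 1
    rwa [map_one] at this
  · rw [Subsingleton.elim i j, if_pos rfl, one_mul]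
    have h1 : H.cl (C.pull (snd Y X) a) = H.pull (snd Y X) (H.cl a) :=
      hH.isClassMap.cl_pull (snd Y X) a
    have h2 : H.push (fst Y X) (H.cl (C.pull (snd Y X) a)) =
        H.cl (C.push (fst Y X) (C.pull (snd Y X) a)) :=
      (hH.isClassMap.cl_push (fst Y X) _).symm
    show H.push (fst Y X) (H.pull (snd Y X) (H.cl a)) = 1
    rw [← h1, h2, (ha Y).2, one_smul, map_one]

lemma defect_step {r m d A : ℕ} (hd : DefectGE T (pw X r) d) (hA : RankGE T (pw X m) A) :
    DefectGE T (pw X (r + m + 1)) (d * A) := by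
  obtain ⟨f, g, h⟩ := pw_iso X r m
  exact defect_iso f g h (defect_prod hd hA)

lemma defect_iter {r m A : ℕ} (hd : DefectGE T (pw X r) 1) (hA : RankGE T (pw X m) A)
    (q s : ℕ) : DefectGE T (pw X (r + q * (m + 1) + s)) (A ^ q) := by
  have h1 : DefectGE T (pw X (r + q * (m + 1))) (A ^ q) := by
    induction q with
    | zero => simpa using hd
    | succ q ih =>
      have := defect_step ih hA
      rwa [show r + q * (m + 1) + m + 1 = r + (q + 1) * (m + 1) by ring, ← pow_succ] at this
  induction s with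
  | zero => simpa using h1
  | succ s ih =>
    have := defect_step (m := 0) ih (rank_one X)
    rwa [mul_one] at this

lemma defect_one_of_not_holds (h : ¬ Holds T X) : DefectGE T X 1 := by
  obtain ⟨t, ht, hna⟩ := Set.not_subset.1 h
  refine ⟨fun _ => t, fun _ => ht, fun c hc => ?_⟩
  rw [Fin.sum_univ_one] at hc
  funext i
  rw [Subsingleton.elim i 0]
  by_contra hne
  apply hna
  have h1 := Submodule.smul_mem _ (c 0)⁻¹ hc
  rwa [smul_smul, inv_mul_cancel₀ hne, one_smul] at h1

/-- If the conjecture fails for a power of `X`, the defects are large. -/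
lemma defect_big {m n A : ℕ} (h : ¬ Holds T (pw X m)) (hA : RankGE T (pw X n) A) :
    DefectGE T (pw X (m + n + 1)) A := by
  have := defect_step (defect_one_of_not_holds h) hA
  rwa [one_mul] at this

/-- The main theorem. -/
theorem main (T : Pair H) (X : 𝒱.Obj) : (∀ n, Holds T (pw X n)) ↔ SlowGrowth T X := by
  constructor
  · intro h
    refine ⟨0, 1, 0, 0, rank_one X, le_rfl, by simp, ?_⟩
    refine (Eventually.of_forall fun n => ?_).frequently
    rintro d ⟨t, ht, hti⟩
    rw [zero_mul]
    have h1 : d = 0 := by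
      by_contra hd
      have h2 := hti (fun _ => 1) (Submodule.sum_mem _ fun i _ =>
        Submodule.smul_mem _ _ (h n (ht i)))
      exact one_ne_zero (congrFun h2 ⟨0, Nat.pos_of_ne_zero hd⟩)
    rw [h1, Nat.cast_zero]
  · rintro ⟨m, A, β, D, hA, hβ, hβA, hfr⟩ r
    by_contra hr
    have h1 := defect_one_of_not_holds hr
    refine estimate (r := r) (D := D) (Nat.succ_pos m) hβ hβA (hfr.mono fun n hn q s hnq => ?_)
    have h2 := hn (A ^ q) (by rw [hnq]; exact defect_iter h1 hA q s)
    rwa [Nat.cast_pow] at h2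

lemma defectIn_iso (f : X ⟶ Y) (g : Y ⟶ X) (h : f ≫ g = 𝟙 X) {r d : ℕ}
    (hd : DefectInGE T r X d) : DefectInGE T r Y d := by
  obtain ⟨t, ht, hti⟩ := hd
  refine ⟨fun i => H.pull g (t i), fun i => ⟨T.large.pull g (ht i).1,
    hH.isTheory.hasDegrees.pull_mem g (ht i).2⟩, fun c hc => hti c ?_⟩
  have h1 : H.pull f _ ∈ T.abs X := T.small.pull f hc
  rw [map_sum] at h1
  simpa only [map_smul, pull_pull f g h] using h1

/-- The defects in a fixed codimension are superadditive. -/
lemma defectIn_add {r d e : ℕ} (hr : 0 < r) (hd : DefectInGE T r X d) (he : DefectInGE T r Y e) :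
    DefectInGE T r (X.prod Y) (d + e) := by
  obtain ⟨x, hx, hxi⟩ := hd
  obtain ⟨y, hy, hyi⟩ := he
  obtain ⟨a, ha0, ha⟩ := exists_pt (C := C) Y
  obtain ⟨b, hb0, hb⟩ := exists_pt (C := C) X
  refine ⟨Fin.append (fun i => H.pull (fst X Y) (x i)) fun j => H.pull (snd X Y) (y j),
    fun i => ?_, fun c hc => ?_⟩
  · refine Fin.addCases (fun i => ?_) (fun j => ?_) i
    · rw [Fin.append_left]
      exact ⟨T.large.pull _ (hx i).1, hH.isTheory.hasDegrees.pull_mem _ (hx i).2⟩
    · rw [Fin.append_right]
      exact ⟨T.large.pull _ (hy j).1, hH.isTheory.hasDegrees.pull_mem _ (hy j).2⟩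
  · rw [Fin.sum_univ_add] at hc
    simp only [Fin.append_left, Fin.append_right] at hc
    have h1 : (fun i => c (Fin.castAdd e i)) = 0 := by
      apply hxi
      have h2 : H.push (fst X Y) _ ∈ T.abs X :=
        T.small.push (fst X Y) (T.smallMul _ _ _ hc (T.small.alg (C.pull (snd X Y) a)))
      rw [TheoryData.mul, add_mul, Finset.sum_mul, Finset.sum_mul, map_add, map_sum,
        map_sum] at h2
      simp only [smul_mul_assoc, map_smul, push_fst_pt _ ha] at h2
      have h3 : ∀ j, H.push (fst X Y) (H.pull (snd X Y) (y j) * H.cl (C.pull (snd X Y) a)) = 0 :=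
        fun j => push_fst_zero hr (hy j).2 ha0
      simp only [h3, smul_zero, Finset.sum_const_zero, add_zero] at h2
      exact h2
    have h4 : (fun j => c (Fin.natAdd d j)) = 0 := by
      apply hyi
      have h5 : ∀ i, c (Fin.castAdd e i) = 0 := fun i => congrFun h1 i
      simp only [h5, zero_smul, Finset.sum_const_zero, zero_add] at hc
      have h2 : H.push (snd X Y) _ ∈ T.abs Y :=
        T.small.push (snd X Y) (T.smallMul _ _ _ hc (T.small.alg (C.pull (fst X Y) b)))
      rw [TheoryData.mul, Finset.sum_mul, map_sum] at h2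
      simp only [smul_mul_assoc, map_smul, push_snd_pt _ hb] at h2
      exact h2
    funext i
    refine Fin.addCases (fun i => ?_) (fun j => ?_) i
    · exact congrFun h1 i
    · exact congrFun h4 j

lemma defectIn_zero (r : ℕ) (X : 𝒱.Obj) : DefectInGE T r X 0 :=
  ⟨fun _ => 0, fun i => i.elim0, fun _ _ => Subsingleton.elim _ _⟩

lemma defectIn_iter {r m : ℕ} (hr : 0 < r) (hd : DefectInGE T r (pw X m) 1) (q s : ℕ) :
    DefectInGE T r (pw X (m + q * (m + 1) + s)) (q + 1) := by
  have h1 : DefectInGE T r (pw X (m + q * (m + 1))) (q + 1) := by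
    induction q with
    | zero => simpa using hd
    | succ q ih =>
      obtain ⟨f, g, h⟩ := pw_iso X (m + q * (m + 1)) m
      have := defectIn_iso f g h (defectIn_add hr ih hd)
      rwa [show m + q * (m + 1) + m + 1 = m + (q + 1) * (m + 1) by ring] at this
  induction s with
  | zero => simpa using h1
  | succ s ih =>
    have := defectIn_add hr ih (defectIn_zero (T := T) r X)
    exact this

lemma defectIn_one {r : ℕ} (h : ¬ HoldsIn T r X) : DefectInGE T r X 1 := by
  unfold HoldsIn at h
  push Not at h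
  obtain ⟨t, ht, hdeg, hna⟩ := h
  refine ⟨fun _ => t, fun _ => ⟨ht, hdeg⟩, fun c hc => ?_⟩
  rw [Fin.sum_univ_one] at hc
  funext i
  rw [Subsingleton.elim i 0]
  by_contra hne
  apply hna
  have h1 := Submodule.smul_mem _ (c 0)⁻¹ hc
  rwa [smul_smul, inv_mul_cancel₀ hne, one_smul] at h1

/-- The theorem in a fixed codimension. -/
theorem main_in (T : Pair H) (X : 𝒱.Obj) {r : ℕ} (hr : 0 < r) :
    (∀ n, HoldsIn T r (pw X n)) ↔ SublinearIn T r X := by
  constructor
  · intro h ε hε
    refine (Eventually.of_forall fun n => ?_).frequently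
    rintro d ⟨t, ht, hti⟩
    have h1 : d = 0 := by
      by_contra hd
      have h2 := hti (fun _ => 1) (Submodule.sum_mem _ fun i _ =>
        Submodule.smul_mem _ _ (h n _ (ht i).1 (ht i).2))
      exact one_ne_zero (congrFun h2 ⟨0, Nat.pos_of_ne_zero hd⟩)
    rw [h1, Nat.cast_zero]
    positivity
  · intro h m
    by_contra hm
    have h1 := defectIn_one hm
    have hM : (0 : ℝ) < m + 1 := by positivity
    obtain ⟨n, hn, hn2⟩ := ((h (1 / (2 * (m + 1))) (by positivity)).and_eventually
      (eventually_ge_atTop (2 * (m + 1)))).exists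
    set q := (n - m) / (m + 1) with hq
    set s := (n - m) % (m + 1) with hs
    have h0 : (m + 1) * q + s = n - m := Nat.div_add_mod _ _
    have hsM : s < m + 1 := Nat.mod_lt _ (Nat.succ_pos m)
    have hnq : n = m + q * (m + 1) + s := by
      have h2 : (m + 1) * q = q * (m + 1) := mul_comm _ _
      omega
    have h3 := hn (q + 1) (by rw [hnq]; exact defectIn_iter hr h1 q s)
    have h4 : (n : ℝ) = m + q * (m + 1) + s := by exact_mod_cast hnq
    have h5 : (s : ℝ) < m + 1 := by exact_mod_cast hsM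
    have h6 : (2 * (m + 1) : ℝ) ≤ n := by exact_mod_cast hn2
    rw [div_mul_eq_mul_div, one_mul, le_div_iff₀ (by positivity)] at h3
    push_cast at h3
    nlinarith

end Pool.Agent.V1151.DA
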